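import Pool.Agent.Lib_helper41.PM.Mono
import Pool.Agent.Lib_helper61.PMN.One

/-!
# Monotonicity of weighted power means in the metrics `δ_1` and `δ_∞`

Let `q ∈ {1, ∞}` and let `p ≠ 0` be a real exponent outside the interval `[1/3, 1/2)`.
The weighted power mean with exponent `p` is monotonic with respect to the Schatten metric `δ_q`
if and only if `1/2 ≤ p ≤ 1`.
-/

open Pool.Agent.Lib_helper41.PM Pool.Agent.Lib_helper61.PMN
open scoped ENNReal

namespace Pool.Agent.Results.MP_9bce2c_an.PowerMeanEndpoints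

theorem result (q : ℝ≥0∞) (hq : q = 1 ∨ q = ∞) (p : ℝ) (hp0 : p ≠ 0)
    (hp : p ∉ Set.Ico (1 / 3 : ℝ) (1 / 2)) :
    Monotonic p q ↔ p ∈ Set.Icc (1 / 2 : ℝ) 1 := by
  have hq1 : 1 ≤ q := by
    rcases hq with rfl | rfl
    · exact le_rfl
    · exact le_top
  have hq2 : q ≠ 2 := by
    rcases hq with rfl | rfl
    · norm_num
    · exact ENNReal.top_ne_ofNat
  constructor
  · intro h
    by_contra hcon
    rcases lt_or_gt_of_ne hp0 with h1 | h1
    · exact not_monotonic_neg hq1 h1 h
    · rcases lt_or_ge p (1 / 3) with h2 | h2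
      · exact not_monotonic_endpoint hq h1 h2 h
      · have h3 : 1 / 2 ≤ p := by
          by_contra h4
          exact hp ⟨h2, not_le.mp h4⟩
        rcases le_or_gt p 1 with h5 | h5
        · exact hcon ⟨h3, h5⟩
        · exact not_monotonic_big hq1 hq2 h5 h
  · intro h
    exact monotonic_mid hq1 h.1 h.2

end Pool.Agent.Results.MP_9bce2c_an.PowerMeanEndpoints
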