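import Pool.Agent.Lib_helper41.PM.Mono

/-!
# Monotonicity of weighted power means in Schatten metrics

Let `q ∈ [1, ∞]`, `q ≠ 2`, and let `p ≠ 0` be a real exponent outside the interval
`(1/87, 1/2)`. The weighted power mean with exponent `p` is monotonic with respect to the
Schatten metric `δ_q` if and only if `1/2 ≤ p ≤ 1`.
-/

open Pool.Agent.Lib_helper41.PM
open scoped ENNReal

namespace Pool.Agent.Results.MP_9bce2c_an.PowerMeanRange

theorem result (q : ℝ≥0∞) (hq : 1 ≤ q) (hq2 : q ≠ 2) (p : ℝ) (hp0 : p ≠ 0)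
    (hp : p ∉ Set.Ioo (1 / 87 : ℝ) (1 / 2)) :
    Monotonic p q ↔ p ∈ Set.Icc (1 / 2 : ℝ) 1 := by
  constructor
  · intro h
    by_contra hcon
    rcases lt_or_gt_of_ne hp0 with h1 | h1
    · exact not_monotonic_neg hq h1 h
    · rcases le_or_gt p (1 / 87) with h2 | h2
      · exact not_monotonic_small hq h1 h2 h
      · have h3 : 1 / 2 ≤ p := by
          by_contra h4
          exact hp ⟨h2, not_le.mp h4⟩
        rcases le_or_gt p 1 with h5 | h5
        · exact hcon ⟨h3, h5⟩
        · exact not_monotonic_big hq hq2 h5 h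
  · intro h
    exact monotonic_mid hq h.1 h.2

end Pool.Agent.Results.MP_9bce2c_an.PowerMeanRange
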